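import Pool.Agent.Helper74.CrossFam

/-!
# MP_e859cd_co: the extremal product of `t`-cross-avoiding pairs, with a rate

For all `1 ≤ t < r` there are `a + b ≤ t - 1` and sets `X_n ⊆ [n]` such that
`|F_{X_n, a}| |F_{X_n^c, b}| ≤ p(n, r, t) ≤ (1 + K / n) |F_{X_n, a}| |F_{X_n^c, b}|` for all large `n`.
-/

set_option autoImplicit false

namespace Pool.Agent.Results.MP_e859cd_co.RateTheorem

open Finset Function Filter

/-- The family `F_{X,s}` of the `r`-subsets `F` of `[n]` with `|F ∩ X| ≥ r - s`. -/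
def Fam (n r : ℕ) (X : Finset ℕ) (s : ℕ) : Finset (Finset ℕ) :=
  ((Finset.range n).powersetCard r).filter (fun F => r ≤ (F ∩ X).card + s)

/-- `p(n, r, t)`: the largest value of `|𝒜| |ℬ|` over the `t`-cross-avoiding pairs of families of `r`-subsets of `[n]`. -/
noncomputable def p (n r t : ℕ) : ℕ :=
  sSup {m | ∃ 𝒜 ℬ : Finset (Finset ℕ), 𝒜 ⊆ (Finset.range n).powersetCard r ∧ ℬ ⊆ (Finset.range n).powersetCard r ∧
    (∀ A ∈ 𝒜, ∀ B ∈ ℬ, (A ∩ B).card ≠ t) ∧ m = 𝒜.card * ℬ.card}

section aux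

open Pool.Agent.Helper74.Cross

private lemma abs_prod_sub {ι : Type*} (s : Finset ι) (a b : ι → ℝ) (ha : ∀ i ∈ s, 0 ≤ a i ∧ a i ≤ 1) (hb : ∀ i ∈ s, 0 ≤ b i ∧ b i ≤ 1) :
    |∏ i ∈ s, a i - ∏ i ∈ s, b i| ≤ ∑ i ∈ s, |a i - b i| := by
  classical
  induction s using Finset.induction_on with
  | empty => simp
  | insert j s hj ih =>
    rw [Finset.prod_insert hj, Finset.prod_insert hj, Finset.sum_insert hj]
    have h1 := ih (fun i hi => ha i (Finset.mem_insert_of_mem hi)) (fun i hi => hb i (Finset.mem_insert_of_mem hi))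
    obtain ⟨ha0, ha1⟩ := ha j (Finset.mem_insert_self j s)
    have hP0 : 0 ≤ ∏ i ∈ s, b i := Finset.prod_nonneg fun i hi => (hb i (Finset.mem_insert_of_mem hi)).1
    have hP1 : ∏ i ∈ s, b i ≤ 1 := Finset.prod_le_one (fun i hi => (hb i (Finset.mem_insert_of_mem hi)).1)
      fun i hi => (hb i (Finset.mem_insert_of_mem hi)).2
    have e : a j * ∏ i ∈ s, a i - b j * ∏ i ∈ s, b i = a j * (∏ i ∈ s, a i - ∏ i ∈ s, b i) + (a j - b j) * ∏ i ∈ s, b i := by ring
    rw [e]
    refine (abs_add_le _ _).trans ?_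
    rw [abs_mul, abs_mul, abs_of_nonneg ha0, abs_of_nonneg hP0]
    have h2 : a j * |∏ i ∈ s, a i - ∏ i ∈ s, b i| ≤ ∑ i ∈ s, |a i - b i| := by
      have h3 : a j * |∏ i ∈ s, a i - ∏ i ∈ s, b i| ≤ 1 * |∏ i ∈ s, a i - ∏ i ∈ s, b i| :=
        mul_le_mul_of_nonneg_right ha1 (abs_nonneg _)
      linarith
    have h4 : |a j - b j| * ∏ i ∈ s, b i ≤ |a j - b j| := by
      have := mul_le_mul_of_nonneg_left hP1 (abs_nonneg (a j - b j))
      linarith
    linarith

private lemma mu_lip {r : ℕ} (S : Set (Fin r → Bool)) {u v : ℝ} (hu : 0 ≤ u ∧ u ≤ 1) (hv : 0 ≤ v ∧ v ≤ 1) :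
    |mu (fun _ : Fin r => u) S - mu (fun _ : Fin r => v) S| ≤ 2 ^ r * r * |u - v| := by
  classical
  unfold mu Ex
  rw [← Finset.sum_sub_distrib]
  refine (Finset.abs_sum_le_sum_abs _ _).trans ?_
  have h1 : ∀ x ∈ (Finset.univ : Finset (Fin r → Bool)),
      |(∏ i, bern (fun _ : Fin r => u) i (x i)) * ind S x - (∏ i, bern (fun _ : Fin r => v) i (x i)) * ind S x| ≤ r * |u - v| := by
    intro x _
    rw [← sub_mul, abs_mul]
    have h2 : |∏ i, bern (fun _ : Fin r => u) i (x i) - ∏ i, bern (fun _ : Fin r => v) i (x i)| ≤ r * |u - v| := by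
      refine (abs_prod_sub _ _ _ ?_ ?_).trans ?_
      · intro i _
        refine ⟨bern_nonneg (fun _ => hu) i _, ?_⟩
        cases x i <;> simp [bern, hu.1, hu.2]
      · intro i _
        refine ⟨bern_nonneg (fun _ => hv) i _, ?_⟩
        cases x i <;> simp [bern, hv.1, hv.2]
      · have h3 : ∀ i ∈ (Finset.univ : Finset (Fin r)), |bern (fun _ : Fin r => u) i (x i) - bern (fun _ : Fin r => v) i (x i)| = |u - v| := by
          intro i _
          cases x i
          · simp only [bern, Bool.false_eq_true, if_false]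
            rw [show (1 - u) - (1 - v) = -(u - v) by ring, abs_neg]
          · simp only [bern, if_true]
        rw [Finset.sum_congr rfl h3]
        simp
    have h4 : |ind S x| ≤ 1 := by
      unfold ind
      by_cases hx : x ∈ S
      · simp [hx]
      · simp [hx]
    calc _ ≤ (r * |u - v|) * 1 := mul_le_mul h2 h4 (abs_nonneg _) (by positivity)
      _ = _ := mul_one _
  refine (Finset.sum_le_sum h1).trans ?_
  rw [Finset.sum_const, Finset.card_univ, Fintype.card_fun, Fintype.card_bool, Fintype.card_fin, nsmul_eq_mul]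
  push_cast
  rw [mul_assoc]

end aux

/-- Extremal products of uniform `t`-cross-avoiding pairs, with rate `O(1/n)`. -/
theorem result (r t : ℕ) (ht : 1 ≤ t) (htr : t < r) :
    ∃ (a b : ℕ) (X : ℕ → Finset ℕ) (K : ℝ), a + b ≤ t - 1 ∧
      (∀ n, X n ⊆ Finset.range n) ∧
      ∀ᶠ n : ℕ in atTop, (X n).Nonempty ∧ X n ≠ Finset.range n ∧
        0 < (Fam n r (X n) a).card * (Fam n r (Finset.range n \ X n) b).card ∧
        (Fam n r (X n) a).card * (Fam n r (Finset.range n \ X n) b).card ≤ p n r t ∧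
        (p n r t : ℝ) ≤ (1 + K / n) * ((Fam n r (X n) a).card * (Fam n r (Finset.range n \ X n) b).card) := by
  open Pool.Agent.Helper74.Cross in
  classical
  obtain ⟨q, j, k, hq0, hq1, hkj, hjr, hmax⟩ := cube_main (r := r) (D := r + 1 - t)
    (by omega) (by omega)
  set S₁ : Set (Fin r → Bool) := {x | j ≤ wt x} with hS₁
  set S₂ : Set (Fin r → Bool) := {x | wt x ≤ k} with hS₂
  have hpc : ∀ i : Fin r, 0 < (fun _ : Fin r => q) i ∧ (fun _ : Fin r => q) i < 1 :=
    fun _ => ⟨hq0, hq1⟩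
  have hμ₁ : 0 < mu (fun _ : Fin r => q) S₁ := by
    refine mu_pos hpc (x := fun _ => true) ?_
    simp only [hS₁, Set.mem_ofPred_eq, wt, if_true, Finset.sum_const, Finset.card_univ,
      Fintype.card_fin, smul_eq_mul, mul_one]
    exact hjr
  have hμ₂ : 0 < mu (fun _ : Fin r => q) S₂ := by
    refine mu_pos hpc (x := fun _ => false) ?_
    simp [hS₂, wt]
  let X : ℕ → Finset ℕ := fun n => Finset.range (Nat.floor (q * n))
  have hfl : ∀ n : ℕ, Nat.floor (q * n) ≤ n := by
    intro n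
    have h1 : q * n ≤ n := by
      have : (0 : ℝ) ≤ n := by positivity
      nlinarith
    exact Nat.floor_le_of_le h1
  have hX : ∀ n, X n ⊆ Finset.range n := fun n =>
    Finset.range_subset_range.2 (hfl n)
  have hXcard : ∀ n, ((X n).card : ℝ) / n = (Nat.floor (q * n) : ℝ) / n := by
    intro n
    simp only [X, Finset.card_range]
  have hF : ∀ n, Fam n r (X n) (r - j) = ((Finset.range n).powersetCard r).filter (fun A => j ≤ (A ∩ X n).card) := by
    intro n
    unfold Fam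
    refine Finset.filter_congr fun A _ => ?_
    omega
  have hG : ∀ n, Fam n r (Finset.range n \ X n) k = ((Finset.range n).powersetCard r).filter
      (fun B => r - k ≤ (B ∩ (Finset.range n \ X n)).card) := by
    intro n
    unfold Fam
    refine Finset.filter_congr fun A _ => ?_
    omega
  have hvalid : ∀ n, ∀ A ∈ Fam n r (X n) (r - j), ∀ B ∈ Fam n r (Finset.range n \ X n) k, (A ∩ B).card ≠ t := by
    intro n A hA B hB
    rw [hF, Finset.mem_filter, Finset.mem_powersetCard] at hA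
    rw [hG, Finset.mem_filter, Finset.mem_powersetCard] at hB
    have h1 : (A ∩ X n).card + (A \ X n).card = r := by
      rw [Finset.card_inter_add_card_sdiff, hA.1.2]
    have h2 : (B ∩ X n).card + (B \ X n).card = r := by
      rw [Finset.card_inter_add_card_sdiff, hB.1.2]
    have h3 : (B ∩ (Finset.range n \ X n)).card ≤ (B \ X n).card := by
      refine Finset.card_le_card (fun a ha => ?_)
      rw [Finset.mem_inter, Finset.mem_sdiff] at ha
      exact Finset.mem_sdiff.2 ⟨ha.1, ha.2.2⟩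
    have h4 : (A ∩ B).card ≤ (A \ X n).card + (B ∩ X n).card := by
      refine (Finset.card_le_card (fun a ha => ?_)).trans (Finset.card_union_le _ _)
      rw [Finset.mem_inter] at ha
      rw [Finset.mem_union]
      by_cases hax : a ∈ X n
      · exact Or.inr (Finset.mem_inter.2 ⟨ha.2, hax⟩)
      · exact Or.inl (Finset.mem_sdiff.2 ⟨ha.1, hax⟩)
    omega
  set m₁ := mu (fun _ : Fin r => q) S₁ with hm₁
  set m₂ := mu (fun _ : Fin r => q) S₂ with hm₂
  have hM0 : 0 < m₁ * m₂ := mul_pos hμ₁ hμ₂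
  set c : ℝ := 2 ^ r * r + r * r with hc
  have hc0 : 0 ≤ c := by positivity
  have hr0 : (0 : ℝ) < r.factorial := by exact_mod_cast r.factorial_pos
  -- the parameter
  have hpar : ∀ n : ℕ, 0 < n → (0 ≤ ((X n).card : ℝ) / n ∧ ((X n).card : ℝ) / n ≤ 1) ∧ |((X n).card : ℝ) / n - q| ≤ 1 / n := by
    intro n hn
    have hn0 : (0 : ℝ) < n := by exact_mod_cast hn
    refine ⟨⟨by positivity, ?_⟩, ?_⟩
    · rw [hXcard, div_le_one hn0]
      exact_mod_cast hfl n
    · rw [hXcard]
      have h1 : (Nat.floor (q * n) : ℝ) ≤ q * n := Nat.floor_le (by positivity)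
      have h2 : q * n < (Nat.floor (q * n) : ℝ) + 1 := Nat.lt_floor_add_one _
      have h3 : (Nat.floor (q * n) : ℝ) / n - q = ((Nat.floor (q * n) : ℝ) - q * n) / n := by
        field_simp
      rw [h3, abs_div, abs_of_pos hn0]
      refine div_le_div_of_nonneg_right ?_ hn0.le
      rw [abs_le]
      constructor <;> linarith
  have hlow1 : ∀ n : ℕ, 0 < n → (m₁ - c / n) * (n : ℝ) ^ r ≤ ((Fam n r (X n) (r - j)).card : ℝ) * r.factorial := by
    intro n hn
    have hn0 : (0 : ℝ) < n := by exact_mod_cast hn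
    obtain ⟨hb, hd⟩ := hpar n hn
    have h1 := lower hn (X n) (hX n) S₁ (F := Fam n r (X n) (r - j)) (Finset.filter_subset _ _) (fun x hinj hx => by
      rw [hF, Finset.mem_filter]
      refine ⟨im_mem_powersetCard hinj, ?_⟩
      rw [card_im_inter hinj]
      exact hx)
    have h2 := mu_lip S₁ hb ⟨hq0.le, hq1.le⟩
    have h3 : m₁ - mu (fun _ : Fin r => ((X n).card : ℝ) / n) S₁ ≤ 2 ^ r * r * (1 / n) := by
      have h4 := (abs_le.1 h2).1
      have h5 : (2 : ℝ) ^ r * r * |((X n).card : ℝ) / n - q| ≤ 2 ^ r * r * (1 / n) := mul_le_mul_of_nonneg_left hd (by positivity)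
      linarith
    refine le_trans (mul_le_mul_of_nonneg_right ?_ (by positivity)) h1
    have h6 : c / n = 2 ^ r * r * (1 / n) + (r * r : ℝ) / n := by
      rw [hc]; ring
    rw [h6]
    linarith
  have hlow2 : ∀ n : ℕ, 0 < n → (m₂ - c / n) * (n : ℝ) ^ r ≤ ((Fam n r (Finset.range n \ X n) k).card : ℝ) * r.factorial := by
    intro n hn
    have hn0 : (0 : ℝ) < n := by exact_mod_cast hn
    obtain ⟨hb, hd⟩ := hpar n hn
    have h1 := lower hn (X n) (hX n) S₂ (F := Fam n r (Finset.range n \ X n) k) (Finset.filter_subset _ _) (fun x hinj hx => by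
      rw [hG, Finset.mem_filter]
      have hps := im_mem_powersetCard hinj
      refine ⟨hps, ?_⟩
      rw [Finset.mem_powersetCard] at hps
      have h1 : (im x ∩ X n).card + (im x \ X n).card = r := by
        rw [Finset.card_inter_add_card_sdiff, hps.2]
      have h2 : im x ∩ (Finset.range n \ X n) = im x \ X n := by
        ext a
        simp only [Finset.mem_inter, Finset.mem_sdiff]
        constructor
        · rintro ⟨h3, -, h5⟩
          exact ⟨h3, h5⟩
        · rintro ⟨h3, h5⟩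
          exact ⟨h3, hps.1 h3, h5⟩
      rw [h2]
      have h3 : (im x ∩ X n).card ≤ k := by
        rw [card_im_inter hinj]
        exact hx
      omega)
    have h2 := mu_lip S₂ hb ⟨hq0.le, hq1.le⟩
    have h3 : m₂ - mu (fun _ : Fin r => ((X n).card : ℝ) / n) S₂ ≤ 2 ^ r * r * (1 / n) := by
      have h4 := (abs_le.1 h2).1
      have h5 : (2 : ℝ) ^ r * r * |((X n).card : ℝ) / n - q| ≤ 2 ^ r * r * (1 / n) := mul_le_mul_of_nonneg_left hd (by positivity)
      linarith
    refine le_trans (mul_le_mul_of_nonneg_right ?_ (by positivity)) h1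
    have h6 : c / n = 2 ^ r * r * (1 / n) + (r * r : ℝ) / n := by
      rw [hc]; ring
    rw [h6]
    linarith
  -- the upper bound
  have hbdd : ∀ n, BddAbove {m | ∃ 𝒜 ℬ : Finset (Finset ℕ), 𝒜 ⊆ (Finset.range n).powersetCard r ∧ ℬ ⊆ (Finset.range n).powersetCard r ∧
      (∀ A ∈ 𝒜, ∀ B ∈ ℬ, (A ∩ B).card ≠ t) ∧ m = 𝒜.card * ℬ.card} := by
    intro n
    refine ⟨((Finset.range n).powersetCard r).card * ((Finset.range n).powersetCard r).card, ?_⟩
    rintro m ⟨𝒜, ℬ, h1, h2, -, rfl⟩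
    exact Nat.mul_le_mul (Finset.card_le_card h1) (Finset.card_le_card h2)
  have hPlow : ∀ n, (Fam n r (X n) (r - j)).card * (Fam n r (Finset.range n \ X n) k).card ≤ p n r t := fun n =>
    le_csSup (hbdd n) ⟨_, _, Finset.filter_subset _ _, Finset.filter_subset _ _, hvalid n, rfl⟩
  have hPup : ∀ n, 2 ≤ n → (p n r t : ℝ) * (r.factorial : ℝ) ^ 2 ≤
      (m₁ * m₂ + (2 ^ r * (r * r) : ℝ) / n) * ((n : ℝ) ^ r) ^ 2 := by
    intro n hn
    have hmem : p n r t ∈ {m | ∃ 𝒜 ℬ : Finset (Finset ℕ), 𝒜 ⊆ (Finset.range n).powersetCard r ∧ ℬ ⊆ (Finset.range n).powersetCard r ∧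
      (∀ A ∈ 𝒜, ∀ B ∈ ℬ, (A ∩ B).card ≠ t) ∧ m = 𝒜.card * ℬ.card} :=
      Nat.sSup_mem ⟨0, ∅, ∅, Finset.empty_subset _, Finset.empty_subset _, by simp, by simp⟩ (hbdd n)
    obtain ⟨𝒜, ℬ, h1, h2, h3, h4⟩ := hmem
    have h5 := upper (by omega : 0 < t) htr hn hM0.le hmax h1 h2 h3
    rw [h4]
    push_cast
    refine le_trans (le_of_eq ?_) h5
    ring
  -- the constant
  set K : ℝ := 4 * (2 ^ r * (r * r) + 2 * c) / (m₁ * m₂) with hK
  have hmle1 : m₁ ≤ 1 := by
    have h1 := mu_mono (p := fun _ : Fin r => q) (fun _ => ⟨hq0.le, hq1.le⟩) (Set.subset_univ S₁)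
    have h2 : mu (fun _ : Fin r => q) Set.univ = 1 := by
      unfold mu Ex
      have h3 : ∀ x ∈ (Finset.univ : Finset (Fin r → Bool)), (∏ i, bern (fun _ : Fin r => q) i (x i)) * ind Set.univ x =
          ∏ i, bern (fun _ : Fin r => q) i (x i) := by
        intro x _
        rw [ind_of_mem (Set.mem_univ x), mul_one]
      rw [Finset.sum_congr rfl h3, ← Fintype.piFinset_univ, ← Finset.prod_univ_sum]
      exact Finset.prod_eq_one fun i _ => bern_sum _ i
    linarith
  have hmle2 : m₂ ≤ 1 := by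
    have h1 := mu_mono (p := fun _ : Fin r => q) (fun _ => ⟨hq0.le, hq1.le⟩) (Set.subset_univ S₂)
    have h2 : mu (fun _ : Fin r => q) Set.univ = 1 := by
      unfold mu Ex
      have h3 : ∀ x ∈ (Finset.univ : Finset (Fin r → Bool)), (∏ i, bern (fun _ : Fin r => q) i (x i)) * ind Set.univ x =
          ∏ i, bern (fun _ : Fin r => q) i (x i) := by
        intro x _
        rw [ind_of_mem (Set.mem_univ x), mul_one]
      rw [Finset.sum_congr rfl h3, ← Fintype.piFinset_univ, ← Finset.prod_univ_sum]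
      exact Finset.prod_eq_one fun i _ => bern_sum _ i
    linarith
  have hlarge : ∀ᶠ n : ℕ in atTop, c / n ≤ m₁ / 2 ∧ c / n ≤ m₂ / 2 ∧ 2 ≤ n ∧ 1 ≤ q * n ∧ (4 * c / (m₁ * m₂)) ≤ n := by
    have h1 : Tendsto (fun n : ℕ => c / (n : ℝ)) atTop (nhds 0) := tendsto_const_div_atTop_nhds_zero_nat c
    have h2 : Tendsto (fun n : ℕ => q * (n : ℝ)) atTop atTop := tendsto_natCast_atTop_atTop.const_mul_atTop hq0
    filter_upwards [h1.eventually (ge_mem_nhds (show (0 : ℝ) < m₁ / 2 by positivity)),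
      h1.eventually (ge_mem_nhds (show (0 : ℝ) < m₂ / 2 by positivity)), eventually_ge_atTop 2, h2.eventually_ge_atTop 1,
      tendsto_natCast_atTop_atTop.eventually_ge_atTop (4 * c / (m₁ * m₂))] with n a1 a2 a3 a4 a5
    exact ⟨a1, a2, a3, a4, a5⟩
  refine ⟨r - j, k, X, K, by omega, hX, ?_⟩
  filter_upwards [hlarge] with n hn
  obtain ⟨hc1, hc2, hn2, hqn, hn4⟩ := hn
  have hn0 : (0 : ℝ) < n := by
    have : 0 < n := by omega
    exact_mod_cast this
  have hl1 := hlow1 n (by omega)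
  have hl2 := hlow2 n (by omega)
  set f : ℝ := ((Fam n r (X n) (r - j)).card : ℝ) with hf
  set g : ℝ := ((Fam n r (Finset.range n \ X n) k).card : ℝ) with hg
  set N : ℝ := (n : ℝ) ^ r with hN
  have hNpos : 0 < N := by positivity
  have hu₁ : m₁ / 2 ≤ m₁ - c / n := by linarith
  have hu₂ : m₂ / 2 ≤ m₂ - c / n := by linarith
  have hf1 : 0 < f := by
    have h1 : 0 < f * r.factorial := lt_of_lt_of_le (mul_pos (by linarith [half_pos hμ₁]) hNpos) hl1
    exact (mul_pos_iff_of_pos_right hr0).1 h1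
  have hg1 : 0 < g := by
    have h1 : 0 < g * r.factorial := lt_of_lt_of_le (mul_pos (by linarith [half_pos hμ₂]) hNpos) hl2
    exact (mul_pos_iff_of_pos_right hr0).1 h1
  have hfl1 : 1 ≤ Nat.floor (q * n) := Nat.le_floor (by exact_mod_cast hqn)
  have hfl2 : Nat.floor (q * n) < n := by
    rw [Nat.floor_lt (by positivity)]
    nlinarith
  refine ⟨?_, ?_, ?_, hPlow n, ?_⟩
  · exact Finset.nonempty_range_iff.2 (by omega)
  · intro h
    have h1 := congrArg Finset.card h
    simp only [X, Finset.card_range] at h1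
    omega
  · have h1 : (0 : ℝ) < f * g := mul_pos hf1 hg1
    rw [hf, hg] at h1
    exact_mod_cast h1
  · have hP := hPup n hn2
    -- `f g (r!)^2 ≥ (m₁ - c/n) (m₂ - c/n) N^2`
    have hprod : ((m₁ - c / n) * N) * ((m₂ - c / n) * N) ≤ (f * r.factorial) * (g * r.factorial) :=
      mul_le_mul hl1 hl2 (mul_nonneg (by linarith [half_pos hμ₂]) hNpos.le) (by positivity)
    have hfac : (0 : ℝ) < (r.factorial : ℝ) ^ 2 := by positivity
    refine le_of_mul_le_mul_right ?_ hfac
    have hKn : 0 ≤ K / n := by positivity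
    have hlow : (m₁ - c / n) * (m₂ - c / n) * N ^ 2 ≤ (f * g) * (r.factorial : ℝ) ^ 2 := by
      refine le_trans (le_of_eq ?_) (hprod.trans (le_of_eq ?_)) <;> ring
    have hmid : (m₁ * m₂ + (2 ^ r * (r * r) : ℝ) / n) * N ^ 2 ≤ (1 + K / n) * ((m₁ - c / n) * (m₂ - c / n) * N ^ 2) := by
      have h1 : m₁ * m₂ + (2 ^ r * (r * r) : ℝ) / n ≤ (1 + K / n) * ((m₁ - c / n) * (m₂ - c / n)) := by
        have hprod2 : m₁ * m₂ / 4 ≤ (m₁ - c / n) * (m₂ - c / n) := by
          have := mul_le_mul hu₁ hu₂ (by positivity) (by linarith [half_pos hμ₁])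
          linarith
        have h2 : K / n * (m₁ * m₂ / 4) = (2 ^ r * (r * r) + 2 * c) / n := by
          rw [hK]
          field_simp
        have h3 : K / n * (m₁ * m₂ / 4) ≤ K / n * ((m₁ - c / n) * (m₂ - c / n)) := mul_le_mul_of_nonneg_left hprod2 hKn
        have h4 : m₁ * m₂ - 2 * (c / n) ≤ (m₁ - c / n) * (m₂ - c / n) := by
          have h5 : 0 ≤ c / n := by positivity
          nlinarith
        have h6 : ((2 : ℝ) ^ r * (r * r) + 2 * c) / n = 2 ^ r * (r * r) / n + 2 * (c / n) := by ring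
        rw [add_mul, one_mul]
        linarith
      calc _ ≤ ((1 + K / n) * ((m₁ - c / n) * (m₂ - c / n))) * N ^ 2 := mul_le_mul_of_nonneg_right h1 (by positivity)
        _ = _ := by ring
    calc (p n r t : ℝ) * (r.factorial : ℝ) ^ 2 ≤ (m₁ * m₂ + (2 ^ r * (r * r) : ℝ) / n) * N ^ 2 := hP
      _ ≤ (1 + K / n) * ((m₁ - c / n) * (m₂ - c / n) * N ^ 2) := hmid
      _ ≤ (1 + K / n) * ((f * g) * (r.factorial : ℝ) ^ 2) := mul_le_mul_of_nonneg_left hlow (by linarith)
      _ = (1 + K / n) * (f * g) * (r.factorial : ℝ) ^ 2 := by ring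

end Pool.Agent.Results.MP_e859cd_co.RateTheorem
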